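import Pool.Agent.H773.IE.SH

/-!
# Density of the group generated by the rational transvections (helper154, for helper773)
-/

set_option autoImplicit false

open MeasureTheory Set Filter Topology

namespace Pool.Agent.H154.IE

open Pool.Agent.H773.IE Matrix Matrix.SpecialLinearGroup

variable {d : ℕ}

theorem ww_eq {i j : Fin d} (hij : i ≠ j) (a : ℝ) (ha : a ≠ 0) :
    ((1 + Matrix.single i j a) * (1 + Matrix.single j i (-a⁻¹)) * (1 + Matrix.single i j a) :
      Matrix (Fin d) (Fin d) ℝ) =
    1 - Matrix.single i i 1 - Matrix.single j j 1 + Matrix.single i j a - Matrix.single j i a⁻¹ := by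
  have e1 : (Matrix.single i j a * Matrix.single j i (-a⁻¹) : Matrix (Fin d) (Fin d) ℝ) =
      -Matrix.single i i 1 := by
    rw [Matrix.single_mul_single_same, mul_neg, mul_inv_cancel₀ ha, ← Matrix.single_neg]
  have e2 : (Matrix.single j i (-a⁻¹) * Matrix.single i j a : Matrix (Fin d) (Fin d) ℝ) =
      -Matrix.single j j 1 := by
    rw [Matrix.single_mul_single_same, neg_mul, inv_mul_cancel₀ ha, ← Matrix.single_neg]
  have e3 : (Matrix.single i j a * Matrix.single i j a : Matrix (Fin d) (Fin d) ℝ) = 0 :=
    Matrix.single_mul_single_of_ne _ _ _ _ hij.symm _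
  have e4 : (Matrix.single i i 1 * Matrix.single i j a : Matrix (Fin d) (Fin d) ℝ) =
      Matrix.single i j a := by
    rw [Matrix.single_mul_single_same, one_mul]
  have e5 : (Matrix.single j i (-a⁻¹) : Matrix (Fin d) (Fin d) ℝ) = -Matrix.single j i a⁻¹ := by
    rw [← Matrix.single_neg]
  have e6 : ∀ x y : Matrix (Fin d) (Fin d) ℝ, (1 + x) * (1 + y) * (1 + x) =
      1 + x + y + x * y + x + x * x + y * x + (x * y) * x := by
    intro x y
    noncomm_ring
  rw [e6, e1, e2, e3, neg_mul, e4, e5]
  abel

theorem diag_eq {i j : Fin d} (hij : i ≠ j) (a : ℝ) (ha : a ≠ 0) :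
    diag2n hij a ha = transvection hij a * transvection hij.symm (-a⁻¹) * transvection hij a *
      (transvection hij (-1) * transvection hij.symm 1 * transvection hij (-1)) := by
  apply Subtype.ext
  have h1 := ww_eq hij a ha
  have h2 := ww_eq hij (-1) (by norm_num)
  have h3 : (-(-1 : ℝ)⁻¹) = 1 := by norm_num
  rw [h3] at h2
  rw [coe_mul, coe_mul, coe_mul, coe_mul, coe_mul, transvection_coe, transvection_coe,
    transvection_coe, transvection_coe, h1, h2, diag2n_coe]
  have h4 : (-1 : ℝ)⁻¹ = -1 := by norm_num
  rw [h4]
  simp only [mul_add, add_mul, mul_sub, sub_mul, mul_one, one_mul, single_mul_single_same,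
    single_mul_single_of_ne _ _ _ _ hij, single_mul_single_of_ne _ _ _ _ hij.symm]
  ext k l
  simp only [Matrix.add_apply, Matrix.sub_apply, Matrix.single_apply, Matrix.diagonal_apply,
    Matrix.one_apply, Matrix.zero_apply]
  by_cases hk : k = i
  · subst hk
    by_cases hl : l = k
    · subst hl
      simp [hij, hij.symm]
    · by_cases hl' : l = j
      · subst hl'
        simp [hij, hij.symm]
      · simp [hl, hl', Ne.symm hl, Ne.symm hl', hij, hij.symm]
  · by_cases hk' : k = j
    · subst hk'
      by_cases hl : l = k
      · subst hl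
        simp [hij, hij.symm]
      · by_cases hl' : l = i
        · subst hl'
          simp [hij, hij.symm]
        · simp [hl, hl', Ne.symm hl, Ne.symm hl', hij, hij.symm]
    · simp [hk, hk', Ne.symm hk, Ne.symm hk']

theorem cont_tv {i j : Fin d} (hij : i ≠ j) :
    Continuous fun t : ℝ => (transvection hij t : SLR d) := by
  apply continuous_induced_rng.2
  apply continuous_const.add
  apply continuous_matrix
  intro k l
  simp only [Matrix.single_apply]
  by_cases h : i = k ∧ j = l
  · simp only [h, and_self, if_true]
    exact continuous_id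
  · simp only [h, if_false]
    exact continuous_const

theorem t_dense : S_dense := by
  intro d hd
  haveI : Nontrivial (Fin d) := Fin.nontrivial_iff_two_le.2 hd
  set S : Set (SLR d) := {g : SLR d | ∃ (i j : Fin d) (hij : i ≠ j) (t : ℚ),
    g = Matrix.SpecialLinearGroup.transvection hij (t : ℝ)} with hS
  have htv : ∀ (i j : Fin d) (hij : i ≠ j) (t : ℝ),
      (transvection hij t : SLR d) ∈ (Subgroup.closure S).topologicalClosure := by
    intro i j hij t
    refine Rat.denseRange_cast.induction_on (p := fun t : ℝ =>
      (transvection hij t : SLR d) ∈ (Subgroup.closure S).topologicalClosure) t ?_ ?_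
    · exact (Subgroup.isClosed_topologicalClosure _).preimage (cont_tv hij)
    · intro q
      exact Subgroup.le_topologicalClosure _ (Subgroup.subset_closure ⟨i, j, hij, q, rfl⟩)
  intro g
  rw [← Subgroup.topologicalClosure_coe, SetLike.mem_coe]
  refine diagonal_transvection_induction'
    (fun g => g ∈ (Subgroup.closure S).topologicalClosure) g ?_ htv fun A B => mul_mem
  intro i j hij c hc
  rw [diag_eq hij c hc]
  exact mul_mem (mul_mem (mul_mem (htv _ _ _ _) (htv _ _ _ _)) (htv _ _ _ _))
    (mul_mem (mul_mem (htv _ _ _ _) (htv _ _ _ _)) (htv _ _ _ _))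

end Pool.Agent.H154.IE
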